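import Pool.Agent.Helper20.RG.St1
import Pool.Agent.Helper20.RG.St3

/-! Project RG (MP_cb927e_an), module HLY: the chord operators are bounded by the Hardy-Littlewood
maximal function. -/

set_option autoImplicit false

open MeasureTheory Set Filter Topology
open scoped ENNReal RealInnerProductSpace

namespace Pool.Agent.Helper8.RG

open Pool.Agent.Helper20.RG
open Pool.Agent.Helper68.LM (Pl BB Bd Av HL ft fm DQ)

theorem finrank_Pl : Module.finrank ℝ Pl = 2 := by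
  show Module.finrank ℝ (EuclideanSpace ℝ (Fin 2)) = 2
  simp

theorem lint_affine (h : Pl → ℝ≥0∞) (hh : Measurable h) (u : Pl) (a : ℝ) (ha : 0 < a) :
    ∫⁻ w : Pl, h (u + a • w) = ENNReal.ofReal ((a ^ 2)⁻¹) * ∫⁻ w, h w := by
  have hm : Measurable (fun v : Pl => h (u + v)) := hh.comp (measurable_const_add u)
  have h1 : ∫⁻ w : Pl, h (u + a • w) = ∫⁻ v, h (u + v) ∂(Measure.map (fun w : Pl => a • w) volume) := by
    rw [lintegral_map hm (measurable_const_smul a)]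
  rw [h1, Measure.map_addHaar_smul volume ha.ne', lintegral_smul_measure, finrank_Pl,
    abs_of_pos (by positivity), lintegral_add_left_eq_self (fun v => h v) u, smul_eq_mul]

theorem hHLY (hPT : StPT) (hMEA : StMEA) : StHLY := by
  intro s c m ℓ R ρ k g x hs hc hℓ hℓ1 hρ hg hg0
  obtain ⟨hgm, _⟩ := hg
  have hR : 0 ≤ R := (norm_nonneg c).trans hc
  set a : ℝ := 2 * (2 : ℝ) ^ (-(m : ℤ)) with ha
  have ha0 : 0 < a := by positivity
  have ha2 : a ≤ 2 := by
    have : (2 : ℝ) ^ (-(m : ℤ)) ≤ 1 := by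
      rw [zpow_neg, zpow_natCast]
      exact inv_le_one_of_one_le₀ (one_le_pow₀ (by norm_num))
    linarith
  have hak : 2 * (2 : ℝ) ^ (k - (m : ℤ)) = (2 : ℝ) ^ k * a := by
    rw [ha, sub_eq_add_neg, zpow_add₀ (by norm_num)]; ring
  have hainv : (a ^ 2)⁻¹ ≤ (4 : ℝ) ^ m := by
    have : a ^ 2 = 4 * ((4 : ℝ) ^ m)⁻¹ := by
      rw [ha, zpow_neg, zpow_natCast, mul_pow, inv_pow, ← pow_mul, mul_comm m 2, pow_mul]
      norm_num
    rw [this, mul_inv, inv_inv]
    have h4 : (0 : ℝ) < 4 ^ m := by positivity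
    linarith
  set h : Pl → ℝ≥0∞ := (Metric.closedBall (0 : Pl) ρ).indicator
    (fun w => ‖g (x - (2 : ℝ) ^ k • w)‖ₑ) with hh
  have hm1 : Measurable (fun w : Pl => ‖g (x - (2 : ℝ) ^ k • w)‖ₑ) :=
    (hgm.comp ((measurable_const_smul ((2 : ℝ) ^ k)).const_sub x)).enorm
  have hhm : Measurable h := hm1.indicator Metric.isClosed_closedBall.measurableSet
  have hhHL : ∫⁻ w, h w ≤ HL ρ g x := by
    rw [hh, lintegral_indicator Metric.isClosed_closedBall.measurableSet]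
    exact le_iSup (fun k : ℤ => ∫⁻ w in Metric.closedBall (0 : Pl) ρ, ‖g (x - (2 : ℝ) ^ k • w)‖ₑ) k
  -- the inner average
  have key : ∀ y : Pl, ‖y‖ ≤ 1 →
      ‖Av bx (2 * (2 : ℝ) ^ (k - (m : ℤ))) g (x - (2 : ℝ) ^ k • c - ((2 : ℝ) ^ k * ℓ) • y)‖ₑ ≤
        ENNReal.ofReal ((4 : ℝ) ^ m) * HL ρ g x := by
    intro y hy
    have hSq : MeasurableSet (Sq (0 : Pl) (1 / 2)) :=
      (hPT.2.2.2.2.2.2.2 0 (1 / 2) (by norm_num)).1
    calc ‖Av bx (2 * (2 : ℝ) ^ (k - (m : ℤ))) g (x - (2 : ℝ) ^ k • c - ((2 : ℝ) ^ k * ℓ) • y)‖ₑ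
        ≤ ∫⁻ w, ‖g (x - (2 : ℝ) ^ k • c - ((2 : ℝ) ^ k * ℓ) • y -
            (2 * (2 : ℝ) ^ (k - (m : ℤ))) • w)‖ₑ ∂bx := by
          unfold Av
          exact enorm_integral_le_lintegral_enorm _
      _ = ∫⁻ w, (Sq (0 : Pl) (1 / 2)).indicator (fun w => ‖g (x - (2 : ℝ) ^ k • c -
            ((2 : ℝ) ^ k * ℓ) • y - (2 * (2 : ℝ) ^ (k - (m : ℤ))) • w)‖ₑ) w := by
          rw [lintegral_indicator hSq]; rfl
      _ ≤ ∫⁻ w, h ((c + ℓ • y) + a • w) := by
          refine lintegral_mono fun w => ?_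
          by_cases hw : w ∈ Sq (0 : Pl) (1 / 2)
          · rw [indicator_of_mem hw]
            have hwn : ‖w‖ ≤ 1 := by
              have h1 := (hPT.2.2.1 w).2.2.1
              have h2 : |w 0| ≤ 1 / 2 ∧ |w 1| ≤ 1 / 2 := by
                have := hw
                simpa [Sq] using this
              linarith [h2.1, h2.2]
            have hmem : c + ℓ • y + a • w ∈ Metric.closedBall (0 : Pl) ρ := by
              rw [mem_closedBall_zero_iff]
              calc ‖c + ℓ • y + a • w‖ ≤ ‖c‖ + ‖ℓ • y‖ + ‖a • w‖ := norm_add₃_le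
                _ = ‖c‖ + ℓ * ‖y‖ + a * ‖w‖ := by
                    rw [norm_smul, norm_smul, Real.norm_of_nonneg hℓ.le, Real.norm_of_nonneg ha0.le]
                _ ≤ R + 1 * 1 + 2 * 1 := by
                    gcongr
                _ ≤ ρ := by linarith
            rw [hh, indicator_of_mem hmem]
            have : x - (2 : ℝ) ^ k • c - ((2 : ℝ) ^ k * ℓ) • y -
                (2 * (2 : ℝ) ^ (k - (m : ℤ))) • w = x - (2 : ℝ) ^ k • (c + ℓ • y + a • w) := by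
              rw [hak, smul_add, smul_add, smul_smul, smul_smul]; abel
            rw [this]
          · rw [indicator_of_notMem hw]; exact bot_le
      _ = ENNReal.ofReal ((a ^ 2)⁻¹) * ∫⁻ w, h w := lint_affine h hhm _ a ha0
      _ ≤ ENNReal.ofReal ((4 : ℝ) ^ m) * HL ρ g x := by
          gcongr
  -- the outer average
  obtain ⟨⟨hsg1, hsg2⟩, hsg3⟩ := hMEA.2.1 s hs
  have hae : ∀ᵐ y ∂(sg s), ‖y‖ ≤ 1 := by
    rw [ae_iff]
    refine measure_mono_null ?_ hsg1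
    intro y hy
    simpa using hy
  calc ENNReal.ofReal (Y s c m ℓ k g x) ≤ ‖Y s c m ℓ k g x‖ₑ := by
        rw [Real.enorm_eq_ofReal_abs]; exact ENNReal.ofReal_le_ofReal (le_abs_self _)
    _ ≤ ∫⁻ y, ‖Av bx (2 * (2 : ℝ) ^ (k - (m : ℤ))) g (x - (2 : ℝ) ^ k • c -
          ((2 : ℝ) ^ k * ℓ) • y)‖ₑ ∂(sg s) := by
        show ‖Av (sg s) ((2 : ℝ) ^ k * ℓ) (Av bx (2 * (2 : ℝ) ^ (k - (m : ℤ))) g)
          (x - (2 : ℝ) ^ k • c)‖ₑ ≤ _
        rw [Av]
        exact enorm_integral_le_lintegral_enorm _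
    _ ≤ ∫⁻ _, ENNReal.ofReal ((4 : ℝ) ^ m) * HL ρ g x ∂(sg s) := by
        refine lintegral_mono_ae ?_
        filter_upwards [hae] with y hy using key y hy
    _ = ENNReal.ofReal ((4 : ℝ) ^ m) * HL ρ g x := by
        rw [lintegral_const, hsg3, mul_one]

end Pool.Agent.Helper8.RG
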